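import Pool.Agent.helper16.LW.Spec

/-!
# Project lw, module K1B: the pairs of different size
-/

set_option autoImplicit false

open Complex MeasureTheory

namespace Pool.Agent.LW

open Pool.Agent.ZD Pool.Agent.helper84.DM Pool.Agent.helper78.ED Pool.Agent.DH

theorem K1B_tel (m : ℕ) (hm : 1 ≤ m) (M : ℕ) :
    ∑ m' ∈ Finset.Icc 1 M, 1 / ((m : ℝ) + m') ^ 2 ≤ 1 / (m : ℝ) - 1 / ((m : ℝ) + M) := by
  have hm0 : (0 : ℝ) < m := by exact_mod_cast hm
  induction M with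
  | zero => simp
  | succ M ih =>
    rw [Finset.sum_Icc_succ_top (by omega)]
    have hM : (0 : ℝ) ≤ (M : ℝ) := Nat.cast_nonneg M
    have h1 : (0 : ℝ) < (m : ℝ) + M := by linarith
    have h2 : (0 : ℝ) < (m : ℝ) + M + 1 := by linarith
    have h3 : 1 / ((m : ℝ) + M + 1) ^ 2 ≤ 1 / ((m : ℝ) + M) - 1 / ((m : ℝ) + M + 1) := by
      rw [div_sub_div _ _ h1.ne' h2.ne', div_le_div_iff₀ (by positivity) (by positivity)]
      nlinarith
    push_cast
    have h4 : (m : ℝ) + (M + 1) = (m : ℝ) + M + 1 := by ring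
    rw [h4]
    linarith

theorem K1B_kap (X y c s : ℝ) (hX : 0 < X) (hc : 0 < c) (hs : 0 < s) (h : c * s ≤ |y|) :
    X ^ 2 * kap (X * y) ≤ 1 / c ^ 2 * (1 / s ^ 2) := by
  have h0 : 0 < c * s := mul_pos hc hs
  have h1 : (c * s) ^ 2 ≤ y ^ 2 := by
    rw [← sq_abs y]
    exact pow_le_pow_left₀ h0.le h 2
  unfold kap
  have h3 : 1 / c ^ 2 * (1 / s ^ 2) = 1 / (c ^ 2 * s ^ 2) := by
    field_simp
  rw [h3, mul_one_div, div_le_div_iff₀ (by positivity) (by positivity)]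
  have h2 : 0 ≤ X ^ 2 * (y ^ 2 - (c * s) ^ 2) := mul_nonneg (sq_nonneg X) (by linarith)
  nlinarith

theorem K1B (hGEO : GEO_stmt) : K1B_stmt := by
  refine ⟨2 / (Real.exp (-5) / 4) ^ 2, by positivity, ?_⟩
  intro X a M hX ha hM
  set c : ℝ := Real.exp (-5) / 4 with hc
  have hc0 : 0 < c := by positivity
  have hkey : ∀ m ∈ Finset.Icc 1 M, ∀ m' ∈ Finset.Icc 1 M,
      X ^ 2 * ((if m < 512 * m' ∧ m' < 512 * m then 0 else kap (X * ((m : ℝ) * Real.exp a - m'))) +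
        kap (X * ((m : ℝ) * Real.exp a + m'))) ≤ 2 / c ^ 2 * (1 / ((m : ℝ) + m') ^ 2) := by
    intro m hm m' hm'
    have hm1 : 1 ≤ m := (Finset.mem_Icc.mp hm).1
    have hm2 : 1 ≤ m' := (Finset.mem_Icc.mp hm').1
    have hm3 : (0 : ℝ) < m := by exact_mod_cast hm1
    have hm4 : (0 : ℝ) < m' := by exact_mod_cast hm2
    have hs : 0 < (m : ℝ) + m' := by linarith
    obtain ⟨-, hg2, hg3⟩ := hGEO m m' a 0 hm1 hm2 ha le_rfl
    have hB : X ^ 2 * kap (X * ((m : ℝ) * Real.exp a + m')) ≤ 1 / c ^ 2 * (1 / ((m : ℝ) + m') ^ 2) := by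
      apply K1B_kap X _ c _ hX hc0 hs
      refine le_trans ?_ hg3
      apply mul_le_mul_of_nonneg_right _ hs.le
      rw [hc]
      have := Real.exp_pos (-5)
      linarith
    have hA : X ^ 2 * (if m < 512 * m' ∧ m' < 512 * m then 0 else kap (X * ((m : ℝ) * Real.exp a - m'))) ≤
        1 / c ^ 2 * (1 / ((m : ℝ) + m') ^ 2) := by
      split_ifs with hif
      · rw [mul_zero]
        positivity
      · apply K1B_kap X _ c _ hX hc0 hs
        apply hg2
        by_contra hcon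
        push Not at hcon
        exact hif ⟨hcon.2, hcon.1⟩
    rw [mul_add]
    have h5 : 2 / c ^ 2 * (1 / ((m : ℝ) + m') ^ 2) =
        1 / c ^ 2 * (1 / ((m : ℝ) + m') ^ 2) + 1 / c ^ 2 * (1 / ((m : ℝ) + m') ^ 2) := by ring
    rw [h5]
    exact add_le_add hA hB
  rw [Finset.mul_sum]
  have h1 : ∑ m ∈ Finset.Icc 1 M, X ^ 2 * ∑ m' ∈ Finset.Icc 1 M,
      ((if m < 512 * m' ∧ m' < 512 * m then 0 else kap (X * ((m : ℝ) * Real.exp a - m'))) +
        kap (X * ((m : ℝ) * Real.exp a + m'))) ≤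
      ∑ m ∈ Finset.Icc 1 M, 2 / c ^ 2 * (1 / (m : ℝ)) := by
    apply Finset.sum_le_sum
    intro m hm
    rw [Finset.mul_sum]
    have h2 : ∑ m' ∈ Finset.Icc 1 M, X ^ 2 *
        ((if m < 512 * m' ∧ m' < 512 * m then 0 else kap (X * ((m : ℝ) * Real.exp a - m'))) +
          kap (X * ((m : ℝ) * Real.exp a + m'))) ≤
        ∑ m' ∈ Finset.Icc 1 M, 2 / c ^ 2 * (1 / ((m : ℝ) + m') ^ 2) :=
      Finset.sum_le_sum fun m' hm' => hkey m hm m' hm'
    refine h2.trans ?_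
    rw [← Finset.mul_sum]
    apply mul_le_mul_of_nonneg_left _ (by positivity)
    have h3 := K1B_tel m (Finset.mem_Icc.mp hm).1 M
    have h4 : 0 ≤ 1 / ((m : ℝ) + M) := by positivity
    linarith
  refine h1.trans ?_
  rw [← Finset.mul_sum]
  apply mul_le_mul_of_nonneg_left _ (by positivity)
  have h6 := harmonic_le_one_add_log M
  have h7 : ((harmonic M : ℚ) : ℝ) = ∑ m ∈ Finset.Icc 1 M, 1 / (m : ℝ) := by
    rw [harmonic_eq_sum_Icc]
    push_cast
    simp only [one_div]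
  rw [h7] at h6
  exact h6

end Pool.Agent.LW
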